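import Pool.Agent.PHR.Final

/-!
# Satisfiability of clause-sets of bounded hermitian rank is decidable in polynomial time

For every fixed `k` a deterministic multi-stack Turing machine decides satisfiability of all
clause-sets whose conflict matrix has hermitian rank at most `k`, in polynomial time. Variables are
bit strings, a clause-set is given by a list of lists of literals, written by the self-delimiting
code `PHR.encode`; the answer is one bit.
-/

open Classical in
theorem Pool.Agent.Results.MP_904835_lc.PolynomialTime.result (k : ℕ) :
    Nonempty (Turing.TM2ComputableInPolyTime
      (fun F : {F : List (List PHR.Lit) // (∀ C ∈ PHR.toSet F, PHR.IsClause C) ∧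
          PHR.hermRank (PHR.CM (PHR.toSet F)) ≤ k} => PHR.encode F.1)
      (fun b : Bool => [b])
      (fun F => decide (PHR.Sat (PHR.toSet F.1)))) :=
  PHR.main k
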